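import Pool.Agent.Lib.MP_e1ba52_h76.Main

set_option autoImplicit false

namespace Pool.Agent.Results.MP_e1ba52_co.Asymptotic

open Pool.Agent.Lib.H76Crit

theorem result (n : ℕ) (hn : 1 ≤ n) :
    ∃ S : Finset (ZMod n × ZMod n), Critical S ∧
      (n : ℝ) ^ 2 - 50 * (n : ℝ) ^ (35 / 18 : ℝ) ≤ (S.card : ℝ) :=
  main n hn

end Pool.Agent.Results.MP_e1ba52_co.Asymptotic
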