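import Pool.Agent.Lib.MP_e1ba52_h62.Main

set_option autoImplicit false

namespace Pool.Agent.Results.MP_e1ba52_co.EveryOrder

open Pool.Agent.Lib.H76Crit

theorem result (n : ℕ) (hn : 6 ≤ n) :
    ∃ S : Finset (ZMod n × ZMod n), Critical S ∧ n * (n - 1) / 2 < S.card :=
  Pool.Agent.Lib.H62Crit.main n hn

end Pool.Agent.Results.MP_e1ba52_co.EveryOrder
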